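import Pool.Agent.R357.MC.Fin
import Pool.Agent.R357.MC.C1748

set_option autoImplicit false

open Pool.Agent.R357.MC

namespace Pool.Agent.Results.MP_719c9c_nt.NoMirror

lemma mem_iff (p : ℤ × ℤ) : p ∈ onCircle (9 / 26, 5 / 26) (√(189125 / 338)) ↔
    (26 * p.1 - 9) ^ 2 + (26 * p.2 - 5) ^ 2 = 378250 := by
  unfold onCircle
  rw [Set.mem_ofPred_eq, Real.sq_sqrt (by norm_num)]
  constructor
  · intro h
    have : ((26 * (p.1 : ℝ) - 9) ^ 2 + (26 * (p.2 : ℝ) - 5) ^ 2) = 378250 := by
      simp only at h
      linear_combination 676 * h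
    exact_mod_cast this
  · intro h
    have : ((26 * (p.1 : ℝ) - 9) ^ 2 + (26 * (p.2 : ℝ) - 5) ^ 2) = 378250 := by exact_mod_cast h
    simp only
    linear_combination this / 676

/-- `1748` is a strong MC number, the circle `C` with centre `(9/26, 5/26)` and radius `√(189125/338)` is a
largest circle enclosing exactly `1748` lattice points, and no lattice-invariant reflection maps the set of
the lattice points on `C` onto itself. -/
theorem result : IsStrong 1748 ∧ IsMCCircle 1748 (9 / 26, 5 / 26) (√(189125 / 338)) ∧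
    ∀ σ : ℤ × ℤ → ℤ × ℤ, IsLatRefl σ →
      σ '' onCircle (9 / 26, 5 / 26) (√(189125 / 338)) ≠ onCircle (9 / 26, 5 / 26) (√(189125 / 338)) := by
  have e1 : P1748.c0 = (9 / 26, 5 / 26) := by unfold Par.c0 P1748; norm_num
  have e2 : P1748.rho = √(189125 / 338) := by unfold Par.rho Par.rho2 P1748; norm_num
  have h1 := cert1748.isMCCircle (by decide)
  have h3 : ¬ IsMC (1748 + 1) :=
    cert1748.not_mc' (by decide) 1 rfl (by decide) (by decide) (0, 1) 177 (by decide) (by decide +kernel)
  rw [e1, e2] at h1
  refine ⟨⟨⟨_, _, h1⟩, h3⟩, h1, ?_⟩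
  intro σ hσ heq
  have m1 : ((24, 0) : ℤ × ℤ) ∈ onCircle (9 / 26, 5 / 26) (√(189125 / 338)) := by rw [mem_iff]; norm_num
  have m2 : ((23, 7) : ℤ × ℤ) ∈ onCircle (9 / 26, 5 / 26) (√(189125 / 338)) := by rw [mem_iff]; norm_num
  have k1 : σ (24, 0) ∈ onCircle (9 / 26, 5 / 26) (√(189125 / 338)) := by
    rw [← heq]; exact Set.mem_image_of_mem _ m1
  have k2 : σ (23, 7) ∈ onCircle (9 / 26, 5 / 26) (√(189125 / 338)) := by
    rw [← heq]; exact Set.mem_image_of_mem _ m2
  rw [mem_iff] at k1 k2
  obtain ⟨a, rfl | rfl | rfl | rfl⟩ := hσ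
  · simp only at k1 k2
    have h : (26 * a - 1248) * (26 * a - 18) = 0 := by linear_combination k1
    rcases mul_eq_zero.1 h with h | h
    · have : a = 48 := by omega
      rw [this] at k2; norm_num at k2
    · omega
  · simp only at k1 k2
    have h : (26 * a - 10) * (26 * a) = 0 := by linear_combination k1
    rcases mul_eq_zero.1 h with h | h
    · omega
    · have : a = 0 := by omega
      rw [this] at k2; norm_num at k2
  · simp only at k1 k2
    have h : (26 * a - 624) * (26 * a - 4) = 0 := by
      have h2 : 2 * ((26 * a - 624) * (26 * a - 4)) = 0 := by linear_combination k1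
      exact (mul_eq_zero.1 h2).resolve_left (by norm_num)
    rcases mul_eq_zero.1 h with h | h
    · have : a = 24 := by omega
      rw [this] at k2; norm_num at k2
    · omega
  · simp only at k1 k2
    have h : (26 * a - 624) * (26 * a - 14) = 0 := by
      have h2 : 2 * ((26 * a - 624) * (26 * a - 14)) = 0 := by linear_combination k1
      exact (mul_eq_zero.1 h2).resolve_left (by norm_num)
    rcases mul_eq_zero.1 h with h | h
    · have : a = 24 := by omega
      rw [this] at k2; norm_num at k2
    · omega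

end Pool.Agent.Results.MP_719c9c_nt.NoMirror
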